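import Mathlib

set_option autoImplicit false

/-!
# The Heisenberg Lie 3-algebra over `F_3` with `z^[3] = z`
-/

namespace Pool.Agent.Helper5.PI

/-- The field with three elements. -/
abbrev K : Type := ZMod 3

/-- The underlying space of the Heisenberg algebra, with coordinates `x, y, z`. -/
def HL : Type := Fin 3 → K

instance : AddCommGroup HL := inferInstanceAs (AddCommGroup (Fin 3 → K))
instance : Module K HL := inferInstanceAs (Module K (Fin 3 → K))

def mk (a b c : K) : HL := ![a, b, c]

@[ext] theorem HL.ext {u v : HL} (h0 : u 0 = v 0) (h1 : u 1 = v 1) (h2 : u 2 = v 2) : u = v := by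
  funext i; fin_cases i <;> assumption

@[simp] theorem add0 (u v : HL) (i : Fin 3) : (u + v) i = u i + v i := rfl
@[simp] theorem smul0 (a : K) (v : HL) (i : Fin 3) : (a • v) i = a * v i := rfl
@[simp] theorem zero0 (i : Fin 3) : (0 : HL) i = 0 := rfl

instance : Bracket HL HL := ⟨fun u v => mk 0 0 (u 0 * v 1 - u 1 * v 0)⟩

@[simp] theorem br0 (u v : HL) : ⁅u, v⁆ 0 = 0 := rfl
@[simp] theorem br1 (u v : HL) : ⁅u, v⁆ 1 = 0 := rfl
@[simp] theorem br2 (u v : HL) : ⁅u, v⁆ 2 = u 0 * v 1 - u 1 * v 0 := rfl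

instance : LieRing HL where
  add_lie := by intro x y z; ext <;> simp; ring
  lie_add := by intro x y z; ext <;> simp; ring
  lie_self := by intro x; ext <;> simp; ring
  leibniz_lie := by intro x y z; ext <;> simp

instance : LieAlgebra K HL where
  lie_smul := by intro t x y; ext <;> simp; ring

/-- The `3`-mapping: `(a x + b y + c z)^[3] = c z` (`c ^ 3 = c` in `F_3`). -/
def f (u : HL) : HL := mk 0 0 (u 2)

@[simp] theorem f0 (u : HL) : f u 0 = 0 := rfl
@[simp] theorem f1 (u : HL) : f u 1 = 0 := rfl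
@[simp] theorem f2 (u : HL) : f u 2 = u 2 := rfl

theorem f_smul (a : K) (x : HL) : f (a • x) = a ^ 3 • f x := by
  have : a ^ 3 = a := ZMod.pow_card a
  rw [this]
  ext <;> simp

theorem f_add (x y : HL) : f (x + y) = f x + f y := by
  ext <;> simp

theorem ad_f (x y : HL) : (LieAlgebra.ad K HL x ^ 3) y = ⁅f x, y⁆ := by
  have h : (LieAlgebra.ad K HL x ^ 3) y = ⁅x, ⁅x, ⁅x, y⁆⁆⁆ := by
    simp [pow_succ]
  rw [h]
  ext <;> simp

theorem br_central (x y w : HL) : ⁅w, ⁅x, y⁆⁆ = 0 := by
  ext <;> simp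

attribute [local instance 100] LieRing.ofAssociativeRing

/-- The enveloping algebra. -/
abbrev U : Type := UniversalEnvelopingAlgebra K HL

abbrev io : HL → U := fun x => UniversalEnvelopingAlgebra.ι K x

theorem three : (3 : K) = 0 := by decide

theorem threeU {B : Type*} [Ring B] [Algebra K B] (b : B) : (3 : ℕ) • b = 0 := by
  have : ((3 : ℕ) : K) • b = 0 := by
    rw [show ((3 : ℕ) : K) = 0 by decide, zero_smul]
  rwa [Nat.cast_smul_eq_nsmul] at this

theorem cube_add {B : Type*} [Ring B] [Algebra K B] (a b c : B) (hc : a * b = b * a + c)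
    (hac : a * c = c * a) (hbc : b * c = c * b) : (a + b) ^ 3 = a ^ 3 + b ^ 3 := by
  have e : (a + b) ^ 3 - (a ^ 3 + b ^ 3) = (3 : ℕ) • (b * a * a + c * a + b * b * a + c * b) := by
    have e1 : (a + b) ^ 3 - (a ^ 3 + b ^ 3) = a * (a * b) + (a * b) * a + b * a * a
        + (a * b) * b + b * (a * b) + b * b * a := by noncomm_ring
    rw [e1, hc]
    have e2 : a * (b * a + c) + (b * a + c) * a + b * a * a
        + (b * a + c) * b + b * (b * a + c) + b * b * a
        = (a * b) * a + a * c + (b * a + c) * a + b * a * a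
        + (b * (a * b) + c * b) + (b * b * a + b * c) + b * b * a := by noncomm_ring
    have e3 : (b * a + c) * a + c * a + (b * a + c) * a + b * a * a
        + (b * (b * a + c) + c * b) + (b * b * a + c * b) + b * b * a
        = (3 : ℕ) • (b * a * a + c * a + b * b * a + c * b) + (b * c - c * b) := by noncomm_ring
    rw [e2, hc, hac, hbc, e3, hbc, sub_self, add_zero]
  rw [threeU] at e
  exact sub_eq_zero.1 e

theorem jac (x y : HL) : UniversalEnvelopingAlgebra.ι K (f (x + y)) -
      UniversalEnvelopingAlgebra.ι K (f x) - UniversalEnvelopingAlgebra.ι K (f y)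
      = (UniversalEnvelopingAlgebra.ι K x + UniversalEnvelopingAlgebra.ι K y) ^ 3
        - UniversalEnvelopingAlgebra.ι K x ^ 3 - UniversalEnvelopingAlgebra.ι K y ^ 3 := by
  have h1 : ∀ u v : HL, UniversalEnvelopingAlgebra.ι K u * UniversalEnvelopingAlgebra.ι K v =
      UniversalEnvelopingAlgebra.ι K v * UniversalEnvelopingAlgebra.ι K u +
      UniversalEnvelopingAlgebra.ι K ⁅u, v⁆ := by
    intro u v
    rw [LieHom.map_lie, LieRing.of_associative_ring_bracket]
    abel
  have h2 : ∀ w : HL, UniversalEnvelopingAlgebra.ι K w * UniversalEnvelopingAlgebra.ι K ⁅x, y⁆ =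
      UniversalEnvelopingAlgebra.ι K ⁅x, y⁆ * UniversalEnvelopingAlgebra.ι K w := by
    intro w
    rw [h1 w, br_central, map_zero, add_zero]
  rw [cube_add _ _ _ (h1 x y) (h2 x) (h2 y), f_add, map_add]
  abel

end Pool.Agent.Helper5.PI
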