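import Mathlib
import Pool.Agent.Helper5.PI.Heis

set_option autoImplicit false

/-!
# Matrix units from the relations of the Heisenberg 3-algebra
-/

namespace Pool.Agent.Helper5.PI

/-- The standard polynomial of degree `n`. -/
def St {B : Type*} [Ring B] (n : ℕ) (r : Fin n → B) : B :=
  ∑ σ : Equiv.Perm (Fin n), ((Equiv.Perm.sign σ : ℤˣ) : ℤ) • (List.ofFn fun i => r (σ i)).prod

section Units

variable {B : Type*} [Ring B] [Algebra K B] {X Y Z : B}

/-- The relations of the restricted enveloping algebra. -/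
structure Rels (X Y Z : B) : Prop where
  xy : X * Y = Y * X + Z
  xz : X * Z = Z * X
  yz : Y * Z = Z * Y
  x3 : X * X * X = 0
  y3 : Y * Y * Y = 0
  z3 : Z * Z * Z = Z

/-- The idempotent `(Z ^ 2 + Z) X ^ 2 Y ^ 2`. -/
def E0 (X Y Z : B) : B := (Z * Z + Z) * (X * X * (Y * Y))

omit [Algebra K B] in
theorem X_E0 (h : Rels X Y Z) : X * E0 X Y Z = 0 := by
  have e1 : X * (Z * Z + Z) = (Z * Z + Z) * X := by
    rw [mul_add, ← mul_assoc, h.xz, mul_assoc, h.xz]; noncomm_ring
  unfold E0
  rw [← mul_assoc, e1]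
  have e2 : (Z * Z + Z) * X * (X * X * (Y * Y)) = (Z * Z + Z) * (X * X * X * (Y * Y)) := by
    noncomm_ring
  rw [e2, h.x3]; simp

omit [Algebra K B] in
theorem E0_Y (h : Rels X Y Z) : E0 X Y Z * Y = 0 := by
  unfold E0
  have e2 : (Z * Z + Z) * (X * X * (Y * Y)) * Y = (Z * Z + Z) * (X * X * (Y * Y * Y)) := by
    noncomm_ring
  rw [e2, h.y3]; simp

omit [Algebra K B] in
theorem Z_E0 (h : Rels X Y Z) : Z * E0 X Y Z = E0 X Y Z := by
  unfold E0
  have e1 : Z * ((Z * Z + Z) * (X * X * (Y * Y))) = (Z * Z * Z + Z * Z) * (X * X * (Y * Y)) := by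
    noncomm_ring
  rw [e1, h.z3, add_comm]

omit [Algebra K B] in
theorem E0_Z (h : Rels X Y Z) : E0 X Y Z * Z = E0 X Y Z := by
  have hx : Commute Z X := h.xz.symm
  have hy : Commute Z Y := h.yz.symm
  have : Commute Z (E0 X Y Z) := by
    unfold E0
    exact (((Commute.refl Z).mul_right (Commute.refl Z)).add_right (Commute.refl Z)).mul_right
      ((hx.mul_right hx).mul_right (hy.mul_right hy))
  rw [← this.eq, Z_E0 h]

theorem E0_E0 (h : Rels X Y Z) : E0 X Y Z * E0 X Y Z = E0 X Y Z := by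
  set E := E0 X Y Z with hE
  have hY : E * Y = 0 := E0_Y h
  have hZ : E * Z = E := E0_Z h
  have e1 : X * X * Y = Y * X * X + Z * X + Z * X := by
    calc X * X * Y = X * (X * Y) := by noncomm_ring
      _ = X * (Y * X + Z) := by rw [h.xy]
      _ = (X * Y) * X + X * Z := by noncomm_ring
      _ = (Y * X + Z) * X + Z * X := by rw [h.xy, h.xz]
      _ = _ := by noncomm_ring
  have e2 : E * (X * X * Y) = E * X + E * X := by
    rw [e1]
    calc E * (Y * X * X + Z * X + Z * X) = (E * Y) * X * X + (E * Z) * X + (E * Z) * X := by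
          noncomm_ring
      _ = _ := by rw [hY, hZ]; simp
  have e3 : E * (X * X * (Y * Y)) = E + E := by
    calc E * (X * X * (Y * Y)) = (E * (X * X * Y)) * Y := by noncomm_ring
      _ = E * (X * Y) + E * (X * Y) := by rw [e2]; noncomm_ring
      _ = E * (Y * X + Z) + E * (Y * X + Z) := by rw [h.xy]
      _ = (E * Y) * X + E * Z + ((E * Y) * X + E * Z) := by noncomm_ring
      _ = _ := by rw [hY, hZ]; simp
  have e4 : E * E = E * (Z * Z + Z) * (X * X * (Y * Y)) := by
    have : E * E0 X Y Z = E * (Z * Z + Z) * (X * X * (Y * Y)) := by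
      unfold E0
      rw [← mul_assoc]
    exact this
  have e5 : E * (Z * Z + Z) = E + E := by
    calc E * (Z * Z + Z) = (E * Z) * Z + E * Z := by noncomm_ring
      _ = _ := by rw [hZ, hZ]
  rw [e4, e5]
  calc (E + E) * (X * X * (Y * Y)) = E * (X * X * (Y * Y)) + E * (X * X * (Y * Y)) := by
        noncomm_ring
    _ = (3 : ℕ) • E + E := by rw [e3]; abel
    _ = E := by rw [threeU, zero_add]

/-- The matrix units. -/
def EE (X Y Z : B) : Fin 2 → Fin 2 → B
  | 0, 0 => E0 X Y Z
  | 0, 1 => E0 X Y Z * X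
  | 1, 0 => Y * E0 X Y Z
  | 1, 1 => Y * E0 X Y Z * X

omit [Algebra K B] in
theorem E0_X_E0 (h : Rels X Y Z) : E0 X Y Z * X * E0 X Y Z = 0 := by
  rw [mul_assoc, X_E0 h, mul_zero]

omit [Algebra K B] in
theorem E0_Y_E0 (h : Rels X Y Z) : E0 X Y Z * (Y * E0 X Y Z) = 0 := by
  rw [← mul_assoc, E0_Y h, zero_mul]

theorem E0_XY_E0 (h : Rels X Y Z) : E0 X Y Z * X * (Y * E0 X Y Z) = E0 X Y Z := by
  calc E0 X Y Z * X * (Y * E0 X Y Z) = E0 X Y Z * (X * Y) * E0 X Y Z := by noncomm_ring
    _ = E0 X Y Z * (Y * X + Z) * E0 X Y Z := by rw [h.xy]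
    _ = (E0 X Y Z * Y) * X * E0 X Y Z + (E0 X Y Z * Z) * E0 X Y Z := by noncomm_ring
    _ = _ := by rw [E0_Y h, E0_Z h, E0_E0 h]; simp

theorem EE_mul (h : Rels X Y Z) (i j k l : Fin 2) :
    EE X Y Z i j * EE X Y Z k l = if j = k then EE X Y Z i l else 0 := by
  have h0 := E0_E0 h
  have h1 := E0_X_E0 h
  have h2 := E0_Y_E0 h
  have h3 := E0_XY_E0 h
  set E := E0 X Y Z with hE
  have key : ∀ (a b : B) (j k : Fin 2),
      (a * E * (if j = 0 then 1 else X)) * ((if k = 0 then 1 else Y) * E * b) =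
        if j = k then a * E * b else 0 := by
    intro a b j k
    fin_cases j <;> fin_cases k
    · simp only [Fin.zero_eta, if_true, mul_one, one_mul]
      calc a * E * (E * b) = a * (E * E) * b := by noncomm_ring
        _ = _ := by rw [h0]
    · simp
      calc a * E * (Y * E * b) = a * (E * (Y * E)) * b := by noncomm_ring
        _ = _ := by rw [h2]; simp
    · simp
      calc a * E * X * (E * b) = a * (E * X * E) * b := by noncomm_ring
        _ = _ := by rw [h1]; simp
    · simp
      calc a * E * X * (Y * E * b) = a * (E * X * (Y * E)) * b := by noncomm_ring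
        _ = _ := by rw [h3]
  have form : ∀ i j : Fin 2, EE X Y Z i j =
      (if i = 0 then 1 else Y) * E * (if j = 0 then 1 else X) := by
    intro i j
    fin_cases i <;> fin_cases j <;> simp [EE, hE]
  rw [form i j, form k l, key, form i l]

/-- The homomorphism from the algebra of `2 × 2` matrices. -/
def phi (h : Rels X Y Z) : Matrix (Fin 2) (Fin 2) K →ₙₐ[K] B where
  toFun M := ∑ i, ∑ j, M i j • EE X Y Z i j
  map_smul' c M := by
    simp only [Finset.smul_sum, MonoidHom.id_apply, Matrix.smul_apply, smul_smul, smul_eq_mul]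
  map_zero' := by simp
  map_add' M N := by
    simp only [Matrix.add_apply, add_smul, Finset.sum_add_distrib]
  map_mul' M N := by
    have : ∀ i j k l : Fin 2, (M i j • EE X Y Z i j) * (N k l • EE X Y Z k l) =
        if j = k then (M i j * N k l) • EE X Y Z i l else 0 := by
      intro i j k l
      rw [smul_mul_smul_comm, EE_mul h]
      split_ifs <;> simp
    simp only [Fin.sum_univ_two, mul_add, add_mul, this, Matrix.mul_apply, add_smul]
    simp
    abel

theorem phi_apply (h : Rels X Y Z) (M : Matrix (Fin 2) (Fin 2) K) :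
    phi h M = ∑ i, ∑ j, M i j • EE X Y Z i j := rfl

theorem phi_inj (h : Rels X Y Z) (h0 : E0 X Y Z ≠ 0) (M : Matrix (Fin 2) (Fin 2) K)
    (hM : phi h M = 0) : M = 0 := by
  have e1 : ∀ a b : Fin 2, EE X Y Z 0 a * phi h M * EE X Y Z b 0 = M a b • E0 X Y Z := by
    intro a b
    rw [phi_apply]
    simp only [Fin.sum_univ_two, mul_add, add_mul, mul_smul_comm, smul_mul_assoc, EE_mul h]
    fin_cases a <;> fin_cases b <;> simp [EE_mul h] <;> rfl
  ext a b
  have := e1 a b
  rw [hM, mul_zero, zero_mul] at this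
  rcases smul_eq_zero.1 this.symm with h1 | h1
  · exact h1
  · exact absurd h1 h0

end Units

end Pool.Agent.Helper5.PI
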