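import Mathlib
import Pool.Agent.Helper5.PI.Units

set_option autoImplicit false

/-!
# Standard polynomials
-/

namespace Pool.Agent.Helper5.PI

theorem st4_basis : ∀ v : Fin 4 → Fin 2 × Fin 2, Function.Injective v →
    ∑ σ : Equiv.Perm (Fin 4), ((Equiv.Perm.sign σ : ℤˣ) : ℤ) •
      (List.ofFn fun i => Matrix.single (v (σ i)).1 (v (σ i)).2 (1 : K)).prod = 0 := by
  decide +kernel

theorem alt_eq {B : Type*} [Ring B] [Algebra K B] (n : ℕ) (M : Fin n → B) :
    MultilinearMap.alternatization (MultilinearMap.mkPiAlgebraFin K n B) M = St n M := by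
  rw [MultilinearMap.alternatization_apply]
  unfold St
  refine Finset.sum_congr rfl fun σ _ => ?_
  rw [MultilinearMap.domDomCongr_apply, MultilinearMap.mkPiAlgebraFin_apply, Units.smul_def]

theorem st4_matrix (M : Fin 4 → Matrix (Fin 2) (Fin 2) K) : St 4 M = 0 := by
  have h : MultilinearMap.alternatization
      (MultilinearMap.mkPiAlgebraFin K 4 (Matrix (Fin 2) (Fin 2) K)) = 0 := by
    refine Module.Basis.ext_alternating (Matrix.stdBasis K (Fin 2) (Fin 2)) ?_
    intro v hv
    rw [alt_eq]
    have e : (fun i => Matrix.stdBasis K (Fin 2) (Fin 2) (v i)) =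
        fun i => Matrix.single (v i).1 (v i).2 (1 : K) :=
      funext fun i => Matrix.stdBasis_eq_single K (v i).1 (v i).2
    rw [e]
    exact st4_basis v hv
  rw [← alt_eq, h]
  rfl

/-- The standard polynomial of degree `4` in the free algebra. -/
theorem st4_free : St 4 (fun i => FreeAlgebra.ι K i) ≠ 0 := by
  intro h
  have h1 := congrArg (FreeAlgebra.lift K (fun i : Fin 4 =>
    (![Matrix.single 0 0 1, Matrix.single 0 1 1, Matrix.single 1 1 1, Matrix.single 1 2 1] i :
      Matrix (Fin 3) (Fin 3) K))) h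
  have h2 : (∑ σ : Equiv.Perm (Fin 4), ((Equiv.Perm.sign σ : ℤˣ) : ℤ) •
      (List.ofFn fun i => (![Matrix.single 0 0 1, Matrix.single 0 1 1, Matrix.single 1 1 1,
        Matrix.single 1 2 1] (σ i) : Matrix (Fin 3) (Fin 3) K)).prod) = 0 := by
    unfold St at h1
    simp only [map_sum, map_zsmul, map_list_prod, List.map_ofFn, Function.comp_def,
      FreeAlgebra.lift_ι_apply, map_zero] at h1
    exact h1
  revert h2
  decide +kernel

theorem st2 {B : Type*} [Ring B] (r : Fin 2 → B) : St 2 r = r 0 * r 1 - r 1 * r 0 := by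
  unfold St
  rw [show (Finset.univ : Finset (Equiv.Perm (Fin 2))) = {1, Equiv.swap 0 1} by decide]
  rw [Finset.sum_pair (by decide)]
  simp [List.ofFn_succ]
  abel

end Pool.Agent.Helper5.PI
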